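import Mathlib

open Filter Topology Set Polynomial

noncomputable section

namespace Pool.Agent.H87.ExpPoly

/-- value at `x` of the exponential polynomial `∑ P_s(x) e^{s x}` -/
def ev (P : ℝ →₀ ℝ[X]) (x : ℝ) : ℝ := P.sum (fun s p => p.eval x * Real.exp (s * x))

theorem tendsto_aux (p : ℝ[X]) {b : ℝ} (hb : 0 < b) :
    Tendsto (fun x : ℝ => p.eval x * Real.exp (-b * x)) atTop (𝓝 0) := by
  have h : (fun x : ℝ => p.eval x) =o[atTop] (fun x => Real.exp (b * x)) := by
    induction p using Polynomial.induction_on' with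
    | add p q hp hq => simpa using hp.add hq
    | monomial n a =>
      simpa using (isLittleO_pow_exp_pos_mul_atTop n hb).const_mul_left a
  have h2 := h.tendsto_div_nhds_zero
  refine h2.congr (fun x => ?_)
  rw [div_eq_mul_inv, ← Real.exp_neg, neg_mul]

theorem eq_zero_of_ev (P : ℝ →₀ ℝ[X]) (h : ∀ x : ℝ, ev P x = 0) : P = 0 := by
  by_contra hP
  have hne : P.support.Nonempty := Finsupp.support_nonempty_iff.2 hP
  obtain ⟨s0, hs0, hmax⟩ := P.support.exists_max_image id hne
  have key : ∀ x : ℝ, (P s0).eval x =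
      - ∑ s ∈ P.support.erase s0, (P s).eval x * Real.exp (-(s0 - s) * x) := by
    intro x
    have h1 := h x
    unfold ev at h1
    rw [Finsupp.sum, ← Finset.add_sum_erase _ _ hs0] at h1
    have h2 : ((P s0).eval x * Real.exp (s0 * x) +
        ∑ s ∈ P.support.erase s0, (P s).eval x * Real.exp (s * x)) * Real.exp (-(s0 * x)) = 0 := by
      rw [h1, zero_mul]
    rw [add_mul, mul_assoc, ← Real.exp_add, add_neg_cancel, Real.exp_zero, mul_one,
      Finset.sum_mul] at h2
    rw [eq_neg_iff_add_eq_zero, ← h2]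
    congr 1
    refine Finset.sum_congr rfl (fun s _ => ?_)
    rw [mul_assoc, ← Real.exp_add]
    congr 2
    ring
  have hlim : Tendsto (fun x : ℝ => (P s0).eval x) atTop (𝓝 0) := by
    have : Tendsto (fun x : ℝ => - ∑ s ∈ P.support.erase s0,
        (P s).eval x * Real.exp (-(s0 - s) * x)) atTop (𝓝 (- ∑ s ∈ P.support.erase s0, 0)) := by
      refine (tendsto_finset_sum _ (fun s hs => ?_)).neg
      have hs' := Finset.mem_erase.1 hs
      have hlt : s < s0 := lt_of_le_of_ne (hmax s hs'.2) hs'.1
      exact tendsto_aux (P s) (sub_pos.2 hlt)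
    simp only [Finset.sum_const_zero, neg_zero] at this
    exact this.congr (fun x => (key x).symm)
  have := (Polynomial.tendsto_nhds_iff (P s0)).1 hlim
  have h0 : P s0 = 0 := Polynomial.leadingCoeff_eq_zero.1 this.1
  exact (Finsupp.mem_support_iff.1 hs0) h0

theorem ev_add (P Q : ℝ →₀ ℝ[X]) (x : ℝ) : ev (P + Q) x = ev P x + ev Q x := by
  unfold ev
  exact Finsupp.sum_add_index' (by simp) (by intros; simp [add_mul])

theorem ev_single (s : ℝ) (p : ℝ[X]) (x : ℝ) :
    ev (Finsupp.single s p) x = p.eval x * Real.exp (s * x) := by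
  unfold ev
  exact Finsupp.sum_single_index (by simp)

theorem analytic_ev (P : ℝ →₀ ℝ[X]) : AnalyticOnNhd ℝ (ev P) Set.univ := by
  induction P using Finsupp.induction_linear with
  | zero =>
    have : ev 0 = fun _ => 0 := by funext x; simp [ev]
    rw [this]; exact analyticOnNhd_const
  | add P Q hP hQ =>
    have : ev (P + Q) = ev P + ev Q := by funext x; exact ev_add P Q x
    rw [this]; exact hP.add hQ
  | single s p =>
    have : ev (Finsupp.single s p) = fun x => p.eval x * Real.exp (s * x) := by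
      funext x; exact ev_single s p x
    rw [this]
    intro x _
    have h1 : AnalyticAt ℝ (fun x : ℝ => p.eval x) x := by
      have := AnalyticOnNhd.eval_polynomial (𝕜 := ℝ) (A := ℝ) p
      exact this x trivial
    have h2 : AnalyticAt ℝ (fun x : ℝ => Real.exp (s * x)) x := by fun_prop
    exact h1.mul h2

theorem eq_zero_of_ev_Icc (P : ℝ →₀ ℝ[X]) (h : ∀ x ∈ Set.Icc (0 : ℝ) 1, ev P x = 0) : P = 0 := by
  apply eq_zero_of_ev
  have h1 : ev P =ᶠ[𝓝 (1/2 : ℝ)] 0 := by
    filter_upwards [Icc_mem_nhds (show (0 : ℝ) < 1/2 by norm_num)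
      (show (1/2 : ℝ) < 1 by norm_num)] with x hx
    exact h x hx
  have h2 := (analytic_ev P).eqOn_zero_of_preconnected_of_eventuallyEq_zero
    isPreconnected_univ (mem_univ (1/2 : ℝ)) h1
  exact fun x => h2 (mem_univ x)

end Pool.Agent.H87.ExpPoly
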