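import Pool.Agent.H87.ExpPoly

open Filter Topology Set Polynomial MeasureTheory
open scoped ContDiff

noncomputable section

namespace Pool.Agent.H87.IncSpace

open ExpPoly

/-- the compact interval `[0,1]` -/
abbrev I := Set.Icc (0 : ℝ) 1

/-- the coordinate function -/
def Xc : C(I, ℝ) := ⟨fun x => (x : ℝ), by fun_prop⟩

/-- the function `x ↦ e^{t x}` -/
def ex (t : ℝ) : C(I, ℝ) := ⟨fun x => Real.exp (t * x), by fun_prop⟩

@[simp] theorem Xc_apply (x : I) : Xc x = x := rfl
@[simp] theorem ex_apply (t : ℝ) (x : I) : ex t x = Real.exp (t * x) := rfl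

theorem ex_zero : ex 0 = 1 := by ext x; simp
theorem ex_add (s t : ℝ) : ex (s + t) = ex s * ex t := by
  ext x; simp [add_mul, Real.exp_add]

theorem ex_eq (t : ℝ) : ex t = NormedSpace.exp (t • Xc) := by
  ext x
  have h := NormedSpace.map_exp (ContinuousMap.evalAlgHom ℝ ℝ x)
    (continuous_eval_const x) (t • Xc)
  simp only [ContinuousMap.evalAlgHom_apply] at h
  rw [h, ← Real.exp_eq_exp_ℝ]
  simp

theorem hasDerivAt_ex (t : ℝ) : HasDerivAt ex (ex t * Xc) t := by
  have h := hasDerivAt_exp_smul_const (𝕂 := ℝ) Xc t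
  have h2 : (fun u : ℝ => NormedSpace.exp (u • Xc)) = ex := by
    funext u; exact (ex_eq u).symm
  rw [h2, ← ex_eq] at h
  exact h

theorem continuous_ex : Continuous ex :=
  continuous_iff_continuousAt.2 fun t => (hasDerivAt_ex t).continuousAt

/-- the function `x ↦ ∫_0^t e^{s x} ds` -/
def cc (t : ℝ) : C(I, ℝ) := ∫ s in (0 : ℝ)..t, ex s

theorem hasDerivAt_cc (t : ℝ) : HasDerivAt cc (ex t) t :=
  continuous_ex.integral_hasStrictDerivAt 0 t |>.hasDerivAt

theorem cc_zero : cc 0 = 0 := by simp [cc]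

theorem cc_mul (t : ℝ) : Xc * cc t = ex t - 1 := by
  have h : ∀ t : ℝ, HasDerivAt (fun t => Xc * cc t - ex t) 0 t := by
    intro t
    have h1 := ((hasDerivAt_cc t).const_mul Xc).sub (hasDerivAt_ex t)
    rw [mul_comm Xc (ex t), sub_self] at h1
    exact h1
  have hc := is_const_of_deriv_eq_zero (f := fun t => Xc * cc t - ex t)
    (fun t => (h t).differentiableAt) (fun t => (h t).deriv) t 0
  simp only [cc_zero, mul_zero, ex_zero, zero_sub] at hc
  rw [sub_eq_iff_eq_add] at hc
  rw [hc]
  ring

theorem cc_add (s t : ℝ) : cc (s + t) = cc s + ex s * cc t := by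
  have h : ∀ t : ℝ, HasDerivAt (fun t => cc (s + t) - (cc s + ex s * cc t)) 0 t := by
    intro t
    have h1 : HasDerivAt (fun t => cc (s + t)) (ex (s + t)) t := by
      have := (hasDerivAt_cc (s + t)).scomp t ((hasDerivAt_id t).const_add s)
      rw [one_smul] at this
      exact this
    have h2 : HasDerivAt (fun t => cc s + ex s * cc t) (ex s * ex t) t :=
      ((hasDerivAt_cc t).const_mul (ex s)).const_add (cc s)
    have h3 := h1.sub h2
    rw [ex_add, sub_self] at h3
    exact h3
  have hc := is_const_of_deriv_eq_zero (f := fun t => cc (s + t) - (cc s + ex s * cc t))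
    (fun t => (h t).differentiableAt) (fun t => (h t).deriv) t 0
  simp only [add_zero, cc_zero, mul_zero, sub_self] at hc
  exact sub_eq_zero.1 hc

/-- The total polynomial `∑_s P_s`. -/
def tot (P : ℝ →₀ ℝ[X]) : ℝ[X] := P.sum (fun _ p => p)

theorem tot_add (P Q : ℝ →₀ ℝ[X]) : tot (P + Q) = tot P + tot Q := by
  unfold tot
  exact Finsupp.sum_add_index' (by simp) (by simp)

theorem tot_single (s : ℝ) (p : ℝ[X]) : tot (Finsupp.single s p) = p := by
  unfold tot
  exact Finsupp.sum_single_index rfl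

/-- The incomplete normed space: all `f ∈ C([0,1])` such that `x f(x) = ∑_s P_s(x) e^{s x}` for
some polynomials `P_s`, almost all zero, with `∑_s P_s = 0`. -/
def E : Submodule ℝ C(I, ℝ) where
  carrier := {f | ∃ P : ℝ →₀ ℝ[X], tot P = 0 ∧ ∀ x : I, (x : ℝ) * f x = ev P x}
  zero_mem' := ⟨0, by simp [tot], fun x => by simp [ev]⟩
  add_mem' := by
    rintro f g ⟨P, hP, hf⟩ ⟨Q, hQ, hg⟩
    refine ⟨P + Q, by rw [tot_add, hP, hQ, add_zero], fun x => ?_⟩
    rw [ev_add, ← hf, ← hg, ContinuousMap.add_apply, mul_add]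
  smul_mem' := by
    rintro a f ⟨P, hP, hf⟩
    refine ⟨a • P, ?_, fun x => ?_⟩
    · have : tot (a • P) = a • tot P := by
        unfold tot
        rw [Finsupp.sum_smul_index' (by simp), Finsupp.smul_sum]
      rw [this, hP, smul_zero]
    · have : ev (a • P) x = a * ev P x := by
        unfold ev
        rw [Finsupp.sum_smul_index' (by simp), Finsupp.mul_sum]
        refine Finsupp.sum_congr (fun s _ => ?_)
        simp [mul_assoc]
      rw [this, ← hf, ContinuousMap.smul_apply, smul_eq_mul]
      ring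

/-- multiplication of a formal exponential polynomial by `q(x) e^{t x}` -/
def act (q : ℝ[X]) (t : ℝ) (P : ℝ →₀ ℝ[X]) : ℝ →₀ ℝ[X] :=
  P.sum (fun s p => Finsupp.single (t + s) (q * p))

theorem act_add (q : ℝ[X]) (t : ℝ) (P Q : ℝ →₀ ℝ[X]) :
    act q t (P + Q) = act q t P + act q t Q := by
  unfold act
  exact Finsupp.sum_add_index' (by simp) (by intros; rw [mul_add, Finsupp.single_add])

theorem act_single (q : ℝ[X]) (t s : ℝ) (p : ℝ[X]) :
    act q t (Finsupp.single s p) = Finsupp.single (t + s) (q * p) := by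
  unfold act
  exact Finsupp.sum_single_index (by simp)

theorem tot_act (q : ℝ[X]) (t : ℝ) (P : ℝ →₀ ℝ[X]) : tot (act q t P) = q * tot P := by
  induction P using Finsupp.induction_linear with
  | zero => simp [act, tot]
  | add P Q hP hQ => rw [act_add, tot_add, hP, hQ, tot_add, mul_add]
  | single s p => rw [act_single, tot_single, tot_single]

theorem ev_act (q : ℝ[X]) (t : ℝ) (P : ℝ →₀ ℝ[X]) (x : ℝ) :
    ev (act q t P) x = q.eval x * Real.exp (t * x) * ev P x := by
  induction P using Finsupp.induction_linear with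
  | zero => simp [act, ev]
  | add P Q hP hQ => rw [act_add, ev_add, hP, hQ, ev_add, mul_add]
  | single s p =>
    rw [act_single, ev_single, ev_single, add_mul, Real.exp_add, eval_mul]
    ring

theorem mul_mem (f : C(I, ℝ)) (hf : f ∈ E) (q : ℝ[X]) (t : ℝ) (g : C(I, ℝ))
    (hg : ∀ x : I, g x = q.eval (x : ℝ) * Real.exp (t * x)) : g * f ∈ E := by
  obtain ⟨P, hP, hf⟩ := hf
  refine ⟨act q t P, by rw [tot_act, hP, mul_zero], fun x => ?_⟩
  rw [ev_act, ← hf, ContinuousMap.mul_apply, hg]
  ring

theorem cc_mem (t : ℝ) : cc t ∈ E := by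
  refine ⟨Finsupp.single t 1 + Finsupp.single 0 (-1), ?_, fun x => ?_⟩
  · rw [tot_add, tot_single, tot_single]; ring
  · have h := DFunLike.congr_fun (cc_mul t) x
    rw [ContinuousMap.mul_apply, Xc_apply] at h
    rw [h, ev_add, ev_single, ev_single]
    simp [sub_eq_add_neg]

theorem one_not_mem : (1 : C(I, ℝ)) ∉ E := by
  rintro ⟨P, hP, h⟩
  have hz : P + Finsupp.single 0 (-X) = 0 := by
    apply eq_zero_of_ev_Icc
    intro x hx
    rw [ev_add, ← h ⟨x, hx⟩, ev_single]
    simp
  have h2 : tot (P + Finsupp.single 0 (-X)) = 0 := by rw [hz]; simp [tot]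
  rw [tot_add, hP, tot_single, zero_add, neg_eq_zero] at h2
  exact Polynomial.X_ne_zero h2

/-- The space `E` as a normed space in its own right. -/
def V : Type := E

instance : NormedAddCommGroup V := inferInstanceAs (NormedAddCommGroup E)
instance : NormedSpace ℝ V := inferInstanceAs (NormedSpace ℝ E)

/-- the inclusion of `V` in `C([0,1])` -/
def incl (f : V) : C(I, ℝ) := (show E from f).1

theorem norm_incl (f : V) : ‖incl f‖ = ‖f‖ := rfl
theorem incl_add (f g : V) : incl (f + g) = incl f + incl g := rfl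
theorem incl_sub (f g : V) : incl (f - g) = incl f - incl g := rfl
theorem incl_smul (a : ℝ) (f : V) : incl (a • f) = a • incl f := rfl
theorem incl_zero : incl 0 = 0 := rfl
theorem incl_mem (f : V) : incl f ∈ E := (show E from f).2
theorem incl_inj {f g : V} (h : incl f = incl g) : f = g := Subtype.ext h
/-- an element of `V` from an element of `E` -/
def mk (f : C(I, ℝ)) (hf : f ∈ E) : V := (⟨f, hf⟩ : E)
@[simp] theorem incl_mk (f : C(I, ℝ)) (hf : f ∈ E) : incl (mk f hf) = f := rfl

/-- multiplication by `e^{t x}` as a continuous linear operator of `V` -/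
def Phi (t : ℝ) : V →L[ℝ] V :=
  LinearMap.mkContinuous
    { toFun := fun f => mk (ex t * incl f) (mul_mem _ (incl_mem f) 1 t (ex t) (by intro x; simp))
      map_add' := fun f g => incl_inj (by simp [incl_add, mul_add])
      map_smul' := fun a f => incl_inj (by simp [incl_smul]) }
    ‖ex t‖ (fun f => by
      rw [← norm_incl, ← norm_incl]
      exact norm_mul_le _ _)

/-- multiplication by `x` as a continuous linear operator of `V` -/
def MX : V →L[ℝ] V :=
  LinearMap.mkContinuous
    { toFun := fun f => mk (Xc * incl f) (mul_mem _ (incl_mem f) X 0 Xc (by intro x; simp))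
      map_add' := fun f g => incl_inj (by simp [incl_add, mul_add])
      map_smul' := fun a f => incl_inj (by simp [incl_smul]) }
    ‖Xc‖ (fun f => by
      rw [← norm_incl, ← norm_incl]
      exact norm_mul_le _ _)

theorem Phi_coe (t : ℝ) (f : V) : incl (Phi t f) = ex t * incl f := rfl
theorem MX_coe (f : V) : incl (MX f) = Xc * incl f := rfl

theorem Phi_zero (f : V) : Phi 0 f = f := incl_inj (by rw [Phi_coe, ex_zero, one_mul])
theorem Phi_add (s t : ℝ) (f : V) : Phi (s + t) f = Phi s (Phi t f) :=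
  incl_inj (by rw [Phi_coe, Phi_coe, Phi_coe, ex_add, mul_assoc])

theorem hasDerivAt_Phi (t : ℝ) : HasDerivAt Phi ((Phi t).comp MX) t := by
  rw [hasDerivAt_iff_isLittleO]
  refine Asymptotics.IsBigO.trans_isLittleO ?_ (hasDerivAt_iff_isLittleO.1 (hasDerivAt_ex t))
  refine Asymptotics.IsBigO.of_bound 1 (Eventually.of_forall fun u => ?_)
  rw [one_mul]
  refine ContinuousLinearMap.opNorm_le_bound _ (norm_nonneg _) (fun f => ?_)
  have : incl ((Phi u - Phi t - (u - t) • (Phi t).comp MX) f) =
      (ex u - ex t - (u - t) • (ex t * Xc)) * incl f := by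
    simp only [sub_mul, smul_mul_assoc, mul_assoc]
    rfl
  rw [← norm_incl, ← norm_incl, this]
  exact norm_mul_le _ _

theorem contDiff_Phi : ContDiff ℝ ∞ Phi := by
  rw [contDiff_infty]
  intro n
  induction n with
  | zero =>
    exact contDiff_zero.2
      (continuous_iff_continuousAt.2 fun t => (hasDerivAt_Phi t).continuousAt)
  | succ n ih =>
    have : ((n + 1 : ℕ) : ℕ∞ω) = (n : ℕ∞ω) + 1 := by norm_cast
    rw [this, contDiff_succ_iff_deriv]
    refine ⟨fun t => (hasDerivAt_Phi t).differentiableAt, by simp, ?_⟩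
    have hd : deriv Phi = fun t => (Phi t).comp MX := by
      funext t; exact (hasDerivAt_Phi t).deriv
    rw [hd]
    exact ih.clm_comp contDiff_const

/-- the cocycle as a curve in `V` -/
def cV (t : ℝ) : V := mk (cc t) (cc_mem t)

theorem cV_zero : cV 0 = 0 := incl_inj (by simp [cV, cc_zero, incl_zero])

theorem cV_add (s t : ℝ) : cV (s + t) = cV s + Phi s (cV t) :=
  incl_inj (by rw [incl_add, Phi_coe]; exact cc_add s t)

theorem continuous_cV : Continuous cV := by
  have h : Continuous cc := continuous_iff_continuousAt.2 fun t => (hasDerivAt_cc t).continuousAt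
  exact Continuous.subtype_mk h _

/-- The curve `cV` has no derivative at `0` in `V`. -/
theorem cV_not_diff (v : V) :
    ¬ Tendsto (fun t : ℝ => t⁻¹ • (cV (0 + t) - cV 0)) (𝓝[≠] 0) (𝓝 v) := by
  intro h
  have hi : Continuous incl := continuous_subtype_val
  have h1 := (hi.tendsto v).comp h
  have h2 : Tendsto (fun t : ℝ => t⁻¹ • (cc (0 + t) - cc 0)) (𝓝[≠] 0) (𝓝 (ex 0)) :=
    (hasDerivAt_cc 0).tendsto_slope_zero
  have h3 : (incl ∘ fun t : ℝ => t⁻¹ • (cV (0 + t) - cV 0)) =
      fun t : ℝ => t⁻¹ • (cc (0 + t) - cc 0) := by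
    funext t
    simp only [Function.comp, incl_smul, incl_sub]
    rfl
  rw [h3] at h1
  have h4 := tendsto_nhds_unique h1 h2
  rw [ex_zero] at h4
  exact one_not_mem (h4 ▸ incl_mem v)

end Pool.Agent.H87.IncSpace
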