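import Mathlib

/-!
# The Fréchet space of sequences of subexponential growth

`E` is the space of real sequences `x` with `sup_n |x_n| e^{-n/(k+1)} < ∞` for all `k`, with its
natural topology, and we study maps into `E` which act coordinatewise through a function of
temperate growth.
-/

open Filter Topology Set
open scoped ContDiff BoundedContinuousFunction

noncomputable section

namespace Pool.Agent.H87.SubExp

/-- The weights `e^{-n/(k+1)}`. -/
def w (k n : ℕ) : ℝ := Real.exp (-((n : ℝ) / (k + 1)))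

theorem w_pos (k n : ℕ) : 0 < w k n := Real.exp_pos _

theorem w_le_one (k n : ℕ) : w k n ≤ 1 := by
  unfold w
  rw [Real.exp_le_one_iff, neg_nonpos]
  positivity

theorem w_pow (k n N : ℕ) : w ((N + 1) * (k + 1) - 1) n ^ (N + 1) = w k n := by
  unfold w
  rw [← Real.exp_nat_mul]
  congr 1
  have h1 : 1 ≤ (N + 1) * (k + 1) := Nat.one_le_iff_ne_zero.mpr (by positivity)
  rw [Nat.cast_sub h1]
  push_cast
  have h2 : (N : ℝ) + 1 ≠ 0 := by positivity
  have h3 : (k : ℝ) + 1 ≠ 0 := by positivity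
  have h4 : ((N : ℝ) + 1) * (k + 1) - 1 + 1 = (N + 1) * (k + 1) := by ring
  rw [h4]
  field_simp

/-- The sequences of subexponential growth, as a subspace of a countable product of copies of the
Banach space of bounded sequences: a sequence `x` corresponds to the family of the bounded
sequences `n ↦ e^{-n/(k+1)} x_n`. -/
def sub : Submodule ℝ (ℕ → (ℕ →ᵇ ℝ)) where
  carrier := {y | ∀ k n, y k n = w k n * (Real.exp n * y 0 n)}
  zero_mem' := by intro k n; simp
  add_mem' := by
    intro a b ha hb k n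
    have h1 := ha k n
    have h2 := hb k n
    simp only [Pi.add_apply, BoundedContinuousFunction.coe_add] at *
    rw [h1, h2]; ring
  smul_mem' := by
    intro c a ha k n
    have h1 := ha k n
    simp only [Pi.smul_apply, BoundedContinuousFunction.coe_smul, smul_eq_mul] at *
    rw [h1]; ring

/-- The space of sequences of subexponential growth. -/
abbrev E : Type := sub

theorem isClosed_sub : IsClosed (sub : Set (ℕ → (ℕ →ᵇ ℝ))) := by
  have h : (sub : Set (ℕ → (ℕ →ᵇ ℝ))) =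
      ⋂ k : ℕ, ⋂ n : ℕ, {y : ℕ → (ℕ →ᵇ ℝ) | y k n = w k n * (Real.exp n * y 0 n)} := by
    ext y
    simp only [mem_iInter]
    rfl
  rw [h]
  refine isClosed_iInter fun k => isClosed_iInter fun n => isClosed_eq ?_ ?_
  · exact (BoundedContinuousFunction.lipschitz_eval_const n).continuous.comp (continuous_apply k)
  · exact continuous_const.mul (continuous_const.mul
      ((BoundedContinuousFunction.lipschitz_eval_const n).continuous.comp (continuous_apply 0)))

instance : CompleteSpace E := isClosed_sub.completeSpace_coe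

instance : IsUniformAddGroup E :=
  (inferInstance : IsUniformAddGroup (sub.toAddSubgroup))

theorem metrizable_E : TopologicalSpace.MetrizableSpace E :=
  (IsEmbedding.subtypeVal (p := fun y => y ∈ sub)).metrizableSpace

instance : LocallyConvexSpace ℝ E :=
  LocallyConvexSpace.induced (sub.subtype)

instance : IsTopologicalAddGroup E := inferInstance
instance : ContinuousSMul ℝ E := inferInstance
instance : T2Space E := inferInstance

/-- The `n`-th coordinate of an element of `E`. -/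
def crd (x : E) (n : ℕ) : ℝ := Real.exp n * x.1 0 n

theorem val_eq (x : E) (k n : ℕ) : x.1 k n = w k n * crd x n := x.2 k n

theorem ext_crd {x y : E} (h : ∀ n, crd x n = crd y n) : x = y := by
  apply Subtype.ext
  funext k
  ext n
  rw [val_eq, val_eq, h]

@[simp] theorem crd_zero (n : ℕ) : crd 0 n = 0 := by simp [crd]

@[simp] theorem crd_add (x y : E) (n : ℕ) : crd (x + y) n = crd x n + crd y n := by
  simp only [crd, Submodule.coe_add, Pi.add_apply, BoundedContinuousFunction.coe_add]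
  ring

@[simp] theorem crd_smul (c : ℝ) (x : E) (n : ℕ) : crd (c • x) n = c * crd x n := by
  simp only [crd, Submodule.coe_smul, Pi.smul_apply, BoundedContinuousFunction.coe_smul,
    smul_eq_mul]
  ring

@[simp] theorem crd_neg (x : E) (n : ℕ) : crd (-x) n = - crd x n := by
  simp only [crd, Submodule.coe_neg, Pi.neg_apply, BoundedContinuousFunction.coe_neg]
  ring

@[simp] theorem crd_sub (x y : E) (n : ℕ) : crd (x - y) n = crd x n - crd y n := by
  rw [sub_eq_add_neg x y, crd_add, crd_neg, ← sub_eq_add_neg]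

/-- The norm of the bounded sequence `n ↦ e^{-n/(k+1)} x_n`: the `k`-th seminorm of `x`. -/
def p (k : ℕ) (x : E) : ℝ := ‖x.1 k‖

theorem continuous_p (k : ℕ) : Continuous (p k) :=
  ((continuous_apply k).comp continuous_subtype_val).norm

@[simp] theorem p_zero (k : ℕ) : p k 0 = 0 := by simp [p]

theorem p_nonneg (k : ℕ) (x : E) : 0 ≤ p k x := norm_nonneg _

theorem crd_le (k : ℕ) (x : E) (n : ℕ) : w k n * |crd x n| ≤ p k x := by
  have h1 : |x.1 k n| ≤ ‖x.1 k‖ := (x.1 k).norm_coe_le_norm n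
  rw [val_eq, abs_mul, abs_of_pos (w_pos k n)] at h1
  exact h1

theorem p_le {k : ℕ} {x : E} {C : ℝ} (hC : 0 ≤ C) (h : ∀ n, w k n * |crd x n| ≤ C) :
    p k x ≤ C := by
  unfold p
  rw [BoundedContinuousFunction.norm_le hC]
  intro n
  rw [Real.norm_eq_abs, val_eq, abs_mul, abs_of_pos (w_pos k n)]
  exact h n

/-- The element of `E` given by a sequence of subexponential growth. -/
def mkE (s : ℕ → ℝ) (hs : ∀ k, ∃ C, ∀ n, w k n * |s n| ≤ C) : E :=
  ⟨fun k => BoundedContinuousFunction.ofNormedAddCommGroup (fun n => w k n * s n)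
    continuous_of_discreteTopology (hs k).choose (fun n => by
      rw [Real.norm_eq_abs, abs_mul, abs_of_pos (w_pos k n)]
      exact (hs k).choose_spec n), by
    intro k n
    change w k n * s n = w k n * (Real.exp n * (w 0 n * s n))
    have h1 : Real.exp n * w 0 n = 1 := by
      unfold w
      rw [← Real.exp_add]
      simp
    linear_combination (-(w k n * s n)) * h1⟩

@[simp] theorem crd_mkE (s : ℕ → ℝ) (hs : ∀ k, ∃ C, ∀ n, w k n * |s n| ≤ C) (n : ℕ) :
    crd (mkE s hs) n = s n := by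
  change Real.exp n * (w 0 n * s n) = s n
  have h1 : Real.exp n * w 0 n = 1 := by
    unfold w
    rw [← Real.exp_add]
    simp
  linear_combination (s n) * h1

theorem tendsto_E {α : Type*} {l : Filter α} {F : α → E} {e : E}
    (h : ∀ k, ∃ b : α → ℝ, Tendsto b l (𝓝 0) ∧
      ∀ᶠ a in l, ∀ n, w k n * |crd (F a) n - crd e n| ≤ b a) :
    Tendsto F l (𝓝 e) := by
  rw [tendsto_subtype_rng, tendsto_pi_nhds]
  intro k
  rw [tendsto_iff_norm_sub_tendsto_zero]
  obtain ⟨b, hb, hF⟩ := h k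
  have h0 : ∀ᶠ a in l, ‖(F a).1 k - e.1 k‖ ≤ b a := by
    filter_upwards [hF] with a ha
    have hb0 : 0 ≤ b a := le_trans (mul_nonneg (w_pos k 0).le (abs_nonneg _)) (ha 0)
    have h1 : p k (F a - e) ≤ b a := p_le hb0 (fun n => by rw [crd_sub]; exact ha n)
    exact h1
  exact squeeze_zero' (Eventually.of_forall fun _ => norm_nonneg _) h0 hb

/-! ### Functions of temperate growth -/

section Temperate

variable {V W : Type*} [NormedAddCommGroup V] [NormedSpace ℝ V]
  [NormedAddCommGroup W] [NormedSpace ℝ W]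

theorem temperate_fderiv {h : V → W} (hh : h.HasTemperateGrowth) :
    (fderiv ℝ h).HasTemperateGrowth := by
  refine ⟨hh.1.fderiv_right (by simp), fun n => ?_⟩
  obtain ⟨k, C, hC⟩ := hh.2 (n + 1)
  exact ⟨k, C, fun x => by rw [norm_iteratedFDeriv_fderiv]; exact hC x⟩

theorem temperate_bound {h : V → W} (hh : h.HasTemperateGrowth) :
    ∃ (N : ℕ) (C : ℝ), 0 ≤ C ∧ ∀ v, ‖h v‖ ≤ C * (1 + ‖v‖) ^ N := by
  obtain ⟨N, C, hC, h1⟩ := hh.norm_iteratedFDeriv_le_uniform 0
  refine ⟨N, C, hC, fun v => ?_⟩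
  have := h1 0 le_rfl v
  rwa [norm_iteratedFDeriv_zero] at this

omit [NormedSpace ℝ V] in
theorem mem_ball_aux {v u x : V} (hx : x ∈ Metric.closedBall v ‖u‖) : ‖x‖ ≤ ‖v‖ + ‖u‖ := by
  rw [mem_closedBall_iff_norm] at hx
  calc ‖x‖ = ‖v + (x - v)‖ := by congr 1; abel
    _ ≤ ‖v‖ + ‖x - v‖ := norm_add_le _ _
    _ ≤ ‖v‖ + ‖u‖ := by linarith

theorem temperate_diff {h : V → W} (hh : h.HasTemperateGrowth) :
    ∃ (N : ℕ) (C : ℝ), 0 ≤ C ∧
      ∀ v u, ‖h (v + u) - h v‖ ≤ C * (1 + ‖v‖ + ‖u‖) ^ N * ‖u‖ := by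
  obtain ⟨N, C, hC, hb⟩ := temperate_bound (temperate_fderiv hh)
  refine ⟨N, C, hC, fun v u => ?_⟩
  have h1 : ∀ x ∈ Metric.closedBall v ‖u‖, ‖fderiv ℝ h x‖ ≤ C * (1 + ‖v‖ + ‖u‖) ^ N := by
    intro x hx
    refine (hb x).trans ?_
    have h3 := mem_ball_aux hx
    have h4 : 1 + ‖x‖ ≤ 1 + ‖v‖ + ‖u‖ := by linarith
    gcongr
  have h2 := (convex_closedBall v ‖u‖).norm_image_sub_le_of_norm_fderiv_le (𝕜 := ℝ) (f := h)
    (fun x _ => hh.1.differentiable (by simp) x) h1 (x := v) (y := v + u)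
    (Metric.mem_closedBall_self (norm_nonneg _)) (by simp)
  simpa using h2

theorem temperate_diff2 {h : V → W} (hh : h.HasTemperateGrowth) :
    ∃ (N : ℕ) (C : ℝ), 0 ≤ C ∧
      ∀ v u, ‖h (v + u) - h v - fderiv ℝ h v u‖ ≤ C * (1 + ‖v‖ + ‖u‖) ^ N * ‖u‖ ^ 2 := by
  obtain ⟨N, C, hC, hb⟩ := temperate_diff (temperate_fderiv hh)
  refine ⟨N, C, hC, fun v u => ?_⟩
  have h1 : ∀ x ∈ Metric.closedBall v ‖u‖,
      ‖fderiv ℝ h x - fderiv ℝ h v‖ ≤ C * (1 + ‖v‖ + ‖u‖) ^ N * ‖u‖ := by
    intro x hx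
    have h3 := hb v (x - v)
    rw [add_sub_cancel] at h3
    rw [mem_closedBall_iff_norm] at hx
    refine h3.trans ?_
    gcongr
  have h2 := (convex_closedBall v ‖u‖).norm_image_sub_le_of_norm_fderiv_le' (𝕜 := ℝ) (f := h)
    (fun x _ => hh.1.differentiable (by simp) x) h1 (x := v) (y := v + u)
    (Metric.mem_closedBall_self (norm_nonneg _)) (by simp)
  have h4 : v + u - v = u := by abel
  rw [h4] at h2
  refine h2.trans (le_of_eq (by ring))

/-- The derivative of `h`, as a function of two variables. -/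
def dsym (h : V → W) (q : V × V) : W := fderiv ℝ h q.1 q.2

theorem temperate_dsym {h : V → W} (hh : h.HasTemperateGrowth) :
    (dsym h).HasTemperateGrowth := by
  have h1 : (fun q : V × V => fderiv ℝ h q.1).HasTemperateGrowth :=
    (temperate_fderiv hh).comp (ContinuousLinearMap.fst ℝ V V).hasTemperateGrowth
  have h2 : (fun q : V × V => q.2).HasTemperateGrowth :=
    (ContinuousLinearMap.snd ℝ V V).hasTemperateGrowth
  exact (ContinuousLinearMap.id ℝ (V →L[ℝ] W)).bilinear_hasTemperateGrowth h1 h2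

end Temperate

/-! ### Coordinatewise maps -/

/-- A linear map `c` from a topological vector space `D` to sequences in a normed space `V` is
of subexponential growth (continuously) if all the sequences `n ↦ e^{-n/(k+1)} ‖c d n‖` are bounded
by a function of `d` which is continuous and vanishes at `0`. -/
def IsCrd (D : Type*) [AddCommGroup D] [Module ℝ D] [TopologicalSpace D]
    {V : Type*} [NormedAddCommGroup V] [NormedSpace ℝ V] (c : D →ₗ[ℝ] (ℕ → V)) : Prop :=
  ∀ k : ℕ, ∃ q : D → ℝ, Continuous q ∧ q 0 = 0 ∧ ∀ d n, w k n * ‖c d n‖ ≤ q d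

section Nem

variable {D : Type*} [AddCommGroup D] [Module ℝ D] [TopologicalSpace D]
  {V : Type*} [NormedAddCommGroup V] [NormedSpace ℝ V] {c : D →ₗ[ℝ] (ℕ → V)}

omit [TopologicalSpace D] in
theorem IsCrd.nonneg {k : ℕ} {q : D → ℝ} (hq : ∀ d n, w k n * ‖c d n‖ ≤ q d) (d : D) :
    0 ≤ q d := le_trans (mul_nonneg (w_pos k 0).le (norm_nonneg _)) (hq d 0)

theorem exists_nem (hc : IsCrd D c) {h : V → ℝ} (hh : h.HasTemperateGrowth) :
    ∃ f : D → E, ∀ d n, crd (f d) n = h (c d n) := by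
  obtain ⟨N, C, hC, hb⟩ := temperate_bound hh
  refine ⟨fun d => mkE (fun n => h (c d n)) ?_, fun d n => crd_mkE _ _ n⟩
  intro k
  obtain ⟨q, -, -, hq⟩ := hc ((N + 1) * (k + 1) - 1)
  set j := (N + 1) * (k + 1) - 1 with hj
  refine ⟨C * (1 + q d) ^ (N + 1), fun n => ?_⟩
  have hw := w_pos j n
  have hw1 := w_le_one j n
  have h1 : w j n * (1 + ‖c d n‖) ≤ 1 + q d := by
    rw [mul_add, mul_one]; exact add_le_add hw1 (hq d n)
  have h0 : (1 : ℝ) ≤ 1 + ‖c d n‖ := by linarith [norm_nonneg (c d n)]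
  calc w k n * |h (c d n)| ≤ w k n * (C * (1 + ‖c d n‖) ^ N) := by
        gcongr
        · exact (w_pos k n).le
        · exact hb _
    _ ≤ w k n * (C * (1 + ‖c d n‖) ^ (N + 1)) :=
        mul_le_mul_of_nonneg_left (mul_le_mul_of_nonneg_left
          (pow_le_pow_right₀ h0 (Nat.le_succ N)) hC) (w_pos k n).le
    _ = C * (w j n * (1 + ‖c d n‖)) ^ (N + 1) := by
        rw [← w_pow k n N, ← hj, mul_pow]; ring
    _ ≤ C * (1 + q d) ^ (N + 1) := by
        gcongr

theorem continuous_nem [IsTopologicalAddGroup D] (hc : IsCrd D c) {h : V → ℝ}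
    (hh : h.HasTemperateGrowth) {f : D → E} (hf : ∀ d n, crd (f d) n = h (c d n)) :
    Continuous f := by
  rw [continuous_iff_continuousAt]
  intro d₀
  obtain ⟨N, C, hC, hb⟩ := temperate_diff hh
  refine tendsto_E fun k => ?_
  obtain ⟨q, hqc, hq0, hq⟩ := hc ((N + 1) * (k + 1) - 1)
  set j := (N + 1) * (k + 1) - 1 with hj
  refine ⟨fun d => C * (1 + q d₀ + q (d - d₀)) ^ N * q (d - d₀), ?_,
    Eventually.of_forall fun d n => ?_⟩
  · have h1 : Continuous fun d => C * (1 + q d₀ + q (d - d₀)) ^ N * q (d - d₀) := by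
      fun_prop
    have h2 := h1.tendsto d₀
    simpa [hq0] using h2
  · have hw := w_pos j n
    have hw1 := w_le_one j n
    have h1 : c d n = c d₀ n + c (d - d₀) n := by
      rw [map_sub, Pi.sub_apply]; abel
    rw [hf, hf, h1]
    have h2 : w j n * (1 + ‖c d₀ n‖ + ‖c (d - d₀) n‖) ≤ 1 + q d₀ + q (d - d₀) := by
      rw [mul_add, mul_add, mul_one]
      exact add_le_add (add_le_add hw1 (hq _ n)) (hq _ n)
    have h3 := hb (c d₀ n) (c (d - d₀) n)
    rw [Real.norm_eq_abs] at h3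
    have h4 := IsCrd.nonneg hq d₀
    have h5 := IsCrd.nonneg hq (d - d₀)
    calc w k n * |h (c d₀ n + c (d - d₀) n) - h (c d₀ n)|
        ≤ w k n * (C * (1 + ‖c d₀ n‖ + ‖c (d - d₀) n‖) ^ N * ‖c (d - d₀) n‖) := by
          have := (w_pos k n).le
          gcongr
      _ = C * (w j n * (1 + ‖c d₀ n‖ + ‖c (d - d₀) n‖)) ^ N * (w j n * ‖c (d - d₀) n‖) := by
          rw [← w_pow k n N, ← hj, mul_pow, pow_succ]; ring
      _ ≤ C * (1 + q d₀ + q (d - d₀)) ^ N * q (d - d₀) := by
          gcongr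
          exact hq _ n

theorem tendsto_nem (hc : IsCrd D c) {h : V → ℝ}
    (hh : h.HasTemperateGrowth) {f : D → E} (hf : ∀ d n, crd (f d) n = h (c d n))
    {df : D × D → E} (hdf : ∀ x v n, crd (df (x, v)) n = dsym h (c x n, c v n)) (x v : D) :
    Tendsto (fun t : ℝ => t⁻¹ • (f (x + t • v) - f x)) (𝓝[≠] 0) (𝓝 (df (x, v))) := by
  obtain ⟨N, C, hC, hb⟩ := temperate_diff2 hh
  refine tendsto_E fun k => ?_
  obtain ⟨q, -, -, hq⟩ := hc ((N + 1 + 1) * (k + 1) - 1)
  set j := (N + 1 + 1) * (k + 1) - 1 with hj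
  refine ⟨fun t => C * (1 + q x + |t| * q v) ^ N * (|t| * q v ^ 2), ?_, ?_⟩
  · have h1 : Continuous fun t : ℝ => C * (1 + q x + |t| * q v) ^ N * (|t| * q v ^ 2) := by
      fun_prop
    have h2 := h1.tendsto 0
    simp only [abs_zero, zero_mul, add_zero, mul_zero] at h2
    exact h2.mono_left nhdsWithin_le_nhds
  · filter_upwards [self_mem_nhdsWithin] with t ht n
    have ht0 : t ≠ 0 := ht
    have hw := w_pos j n
    have hw1 := w_le_one j n
    have h1 : c (x + t • v) n = c x n + t • c v n := by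
      rw [map_add, map_smul, Pi.add_apply, Pi.smul_apply]
    rw [crd_smul, crd_sub, hf, hf, hdf, h1]
    have h2 : t⁻¹ * (h (c x n + t • c v n) - h (c x n)) - dsym h (c x n, c v n) =
        t⁻¹ * (h (c x n + t • c v n) - h (c x n) - fderiv ℝ h (c x n) (t • c v n)) := by
      unfold dsym
      rw [map_smul, smul_eq_mul]
      field_simp
    rw [h2, abs_mul, abs_inv]
    have h3 := hb (c x n) (t • c v n)
    rw [Real.norm_eq_abs, norm_smul, Real.norm_eq_abs] at h3
    have h4 := IsCrd.nonneg hq x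
    have h5 := IsCrd.nonneg hq v
    have h6 : w j n * (1 + ‖c x n‖ + |t| * ‖c v n‖) ≤ 1 + q x + |t| * q v := by
      have e1 : w j n * (1 + ‖c x n‖ + |t| * ‖c v n‖) =
          w j n + w j n * ‖c x n‖ + |t| * (w j n * ‖c v n‖) := by ring
      rw [e1]
      have := hq x n
      have := hq v n
      gcongr
    have ht1 : 0 < |t| := abs_pos.mpr ht0
    calc w k n * (|t|⁻¹ *
          |h (c x n + t • c v n) - h (c x n) - fderiv ℝ h (c x n) (t • c v n)|)
        ≤ w k n * (|t|⁻¹ * (C * (1 + ‖c x n‖ + |t| * ‖c v n‖) ^ N * (|t| * ‖c v n‖) ^ 2)) := by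
          have := (w_pos k n).le
          gcongr
      _ = C * (w j n * (1 + ‖c x n‖ + |t| * ‖c v n‖)) ^ N * (|t| * (w j n * ‖c v n‖) ^ 2) := by
          rw [← w_pow k n (N + 1), ← hj, mul_pow (w j n), pow_succ, pow_succ]
          field_simp
      _ ≤ C * (1 + q x + |t| * q v) ^ N * (|t| * q v ^ 2) := by
          have := hq v n
          gcongr

theorem IsCrd.prod (hc : IsCrd D c) :
    IsCrd (D × D) (LinearMap.pi fun n => LinearMap.prodMap ((LinearMap.proj n) ∘ₗ c)
      ((LinearMap.proj n) ∘ₗ c)) := by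
  intro k
  obtain ⟨q, hqc, hq0, hq⟩ := hc k
  refine ⟨fun p => q p.1 + q p.2, by fun_prop, by simp [hq0], fun d n => ?_⟩
  have h1 := hq d.1 n
  have h2 := hq d.2 n
  have h3 := IsCrd.nonneg hq d.1
  have h4 := IsCrd.nonneg hq d.2
  change w k n * ‖(c d.1 n, c d.2 n)‖ ≤ q d.1 + q d.2
  rw [Prod.norm_mk, mul_max_of_nonneg _ _ (w_pos k n).le]
  exact max_le (by linarith) (by linarith)

end Nem

/-! ### The group law `x * y = x √(1+y²) + y √(1+x²) = sinh (arsinh x + arsinh y)` -/

/-- The symbol `(s, t) ↦ s √(1+t²) + t √(1+s²)`. -/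
def msym (q : ℝ × ℝ) : ℝ := q.1 * √(1 + q.2 ^ 2) + q.2 * √(1 + q.1 ^ 2)

theorem temperate_sqrt : (fun s : ℝ => √(1 + s ^ 2)).HasTemperateGrowth := by
  have h := Function.hasTemperateGrowth_one_add_norm_sq_rpow ℝ (1 / 2)
  have h1 : (fun s : ℝ => √(1 + s ^ 2)) = fun s : ℝ => (1 + ‖s‖ ^ 2) ^ (1 / 2 : ℝ) := by
    funext s
    rw [Real.sqrt_eq_rpow, Real.norm_eq_abs, sq_abs]
  rw [h1]
  exact h

theorem temperate_msym : msym.HasTemperateGrowth := by
  have h1 : (fun q : ℝ × ℝ => q.1).HasTemperateGrowth :=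
    (ContinuousLinearMap.fst ℝ ℝ ℝ).hasTemperateGrowth
  have h2 : (fun q : ℝ × ℝ => q.2).HasTemperateGrowth :=
    (ContinuousLinearMap.snd ℝ ℝ ℝ).hasTemperateGrowth
  have h3 : (fun q : ℝ × ℝ => √(1 + q.1 ^ 2)).HasTemperateGrowth := temperate_sqrt.comp h1
  have h4 : (fun q : ℝ × ℝ => √(1 + q.2 ^ 2)).HasTemperateGrowth := temperate_sqrt.comp h2
  exact (h1.mul h4).add (h2.mul h3)

/-- The coordinate map of `E`, as a linear map. -/
def crdL : E →ₗ[ℝ] (ℕ → ℝ) where
  toFun x n := crd x n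
  map_add' x y := by funext n; simp
  map_smul' c x := by funext n; simp

theorem isCrd_crdL : IsCrd E crdL := fun k =>
  ⟨p k, continuous_p k, p_zero k, fun x n => crd_le k x n⟩

/-- The coordinate map of `E × E`, as a linear map. -/
def crdL2 : E × E →ₗ[ℝ] (ℕ → ℝ × ℝ) :=
  LinearMap.pi fun n => LinearMap.prodMap ((LinearMap.proj n) ∘ₗ crdL) ((LinearMap.proj n) ∘ₗ crdL)

theorem crdL2_apply (q : E × E) (n : ℕ) : crdL2 q n = (crd q.1 n, crd q.2 n) := rfl

theorem isCrd_crdL2 : IsCrd (E × E) crdL2 := isCrd_crdL.prod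

/-- The multiplication `E × E → E`. -/
def opE : E × E → E := (exists_nem isCrd_crdL2 temperate_msym).choose

theorem crd_opE (q : E × E) (n : ℕ) : crd (opE q) n = msym (crd q.1 n, crd q.2 n) :=
  (exists_nem isCrd_crdL2 temperate_msym).choose_spec q n

theorem arsinh_msym (s t : ℝ) : Real.arsinh (msym (s, t)) = Real.arsinh s + Real.arsinh t := by
  rw [← Real.arsinh_sinh (Real.arsinh s + Real.arsinh t), Real.sinh_add, Real.sinh_arsinh,
    Real.sinh_arsinh, Real.cosh_arsinh, Real.cosh_arsinh]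
  congr 1
  unfold msym
  ring

theorem arsinh_opE (q : E × E) (n : ℕ) :
    Real.arsinh (crd (opE q) n) = Real.arsinh (crd q.1 n) + Real.arsinh (crd q.2 n) := by
  rw [crd_opE, arsinh_msym]

theorem ext_arsinh {x y : E} (h : ∀ n, Real.arsinh (crd x n) = Real.arsinh (crd y n)) : x = y :=
  ext_crd fun n => Real.arsinh_injective (h n)

/-- The group structure on `E`. -/
@[reducible] def grpE : Group E where
  mul x y := opE (x, y)
  one := 0
  inv x := -x
  mul_assoc x y z := by
    change opE (opE (x, y), z) = opE (x, opE (y, z))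
    refine ext_arsinh fun n => ?_
    simp only [arsinh_opE, add_assoc]
  one_mul x := by
    change opE (0, x) = x
    refine ext_arsinh fun n => ?_
    simp [arsinh_opE]
  mul_one x := by
    change opE (x, 0) = x
    refine ext_arsinh fun n => ?_
    simp [arsinh_opE]
  inv_mul_cancel x := by
    change opE (-x, x) = 0
    refine ext_arsinh fun n => ?_
    simp [arsinh_opE, Real.arsinh_neg]

theorem opE_comm (x y : E) : opE (x, y) = opE (y, x) := by
  refine ext_arsinh fun n => ?_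
  simp only [arsinh_opE, add_comm]

/-! ### The character `x ↦ ∑ arsinh (x_n) / (n+1)^3` -/

theorem arsinh_mul_exp {s a : ℝ} (hs : 0 ≤ s) (ha : 0 ≤ a) :
    Real.arsinh (s * Real.exp a) ≤ s + a := by
  rw [← Real.sinh_le_sinh, Real.sinh_arsinh, Real.sinh_add, ← Real.cosh_add_sinh a]
  have h1 : s ≤ Real.sinh s := Real.self_le_sinh_iff.mpr hs
  have h2 : s ≤ Real.cosh s := h1.trans (Real.sinh_lt_cosh s).le
  have h3 : 0 ≤ Real.sinh a := Real.sinh_nonneg_iff.mpr ha
  have h4 : 0 ≤ Real.cosh a := (Real.cosh_pos a).le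
  nlinarith [mul_le_mul_of_nonneg_right h1 h4, mul_le_mul_of_nonneg_right h2 h3]

theorem abs_arsinh (s : ℝ) : |Real.arsinh s| = Real.arsinh |s| := by
  rcases le_total 0 s with h | h
  · rw [abs_of_nonneg h, abs_of_nonneg (Real.arsinh_nonneg_iff.mpr h)]
  · rw [abs_of_nonpos h, abs_of_nonpos (Real.arsinh_nonpos_iff.mpr h), Real.arsinh_neg]

theorem abs_arsinh_crd_le (x : E) (k n : ℕ) :
    |Real.arsinh (crd x n)| ≤ (p k x + 1 / (k + 1)) * (n + 1) := by
  have h1 : |crd x n| ≤ p k x * Real.exp (n / (k + 1)) := by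
    have h2 := crd_le k x n
    have h3 : w k n * Real.exp (n / (k + 1)) = 1 := by
      unfold w
      rw [← Real.exp_add]
      simp
    calc |crd x n| = (w k n * |crd x n|) * Real.exp (n / (k + 1)) := by
          linear_combination (-|crd x n|) * h3
      _ ≤ p k x * Real.exp (n / (k + 1)) := by gcongr
  rw [abs_arsinh]
  have hp := p_nonneg k x
  calc Real.arsinh |crd x n| ≤ Real.arsinh (p k x * Real.exp (n / (k + 1))) :=
        Real.arsinh_le_arsinh.mpr h1
    _ ≤ p k x + n / (k + 1) := arsinh_mul_exp hp (by positivity)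
    _ ≤ (p k x + 1 / (k + 1)) * (n + 1) := by
        have h4 : (0 : ℝ) ≤ n := Nat.cast_nonneg n
        have h5 : (0 : ℝ) ≤ 1 / (k + 1) := by positivity
        have h6 : (n : ℝ) / (k + 1) = 1 / (k + 1) * n := by ring
        rw [h6]
        nlinarith [mul_nonneg hp h4]

/-- The `n`-th term of the series defining the character. -/
def tm (x : E) (n : ℕ) : ℝ := Real.arsinh (crd x n) / (n + 1) ^ 3

theorem abs_tm_le (x : E) (k n : ℕ) : |tm x n| ≤ (p k x + 1 / (k + 1)) * (1 / (n + 1) ^ 2) := by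
  have h0 : (0 : ℝ) < (n : ℝ) + 1 := by positivity
  have h1 := abs_arsinh_crd_le x k n
  unfold tm
  rw [abs_div, abs_of_pos (pow_pos h0 3), div_le_iff₀ (pow_pos h0 3)]
  refine h1.trans (le_of_eq ?_)
  field_simp

theorem summable_sq : Summable fun n : ℕ => (1 : ℝ) / (n + 1) ^ 2 := by
  have h := (summable_nat_add_iff 1).mpr (Real.summable_one_div_nat_pow.mpr one_lt_two)
  simpa using h

theorem summable_tm (x : E) : Summable (tm x) :=
  Summable.of_norm_bounded (summable_sq.mul_left (p 0 x + 1 / ((0 : ℕ) + 1)))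
    fun n => abs_tm_le x 0 n

/-- The character. -/
def chi (x : E) : ℝ := ∑' n, tm x n

/-- The constant `∑ 1/(n+1)^2`. -/
def S : ℝ := ∑' n : ℕ, (1 : ℝ) / (n + 1) ^ 2

theorem abs_chi_le (x : E) (k : ℕ) : |chi x| ≤ (p k x + 1 / (k + 1)) * S := by
  have h1 : ‖∑' n, tm x n‖ ≤ ∑' n : ℕ, (p k x + 1 / (k + 1)) * (1 / ((n : ℝ) + 1) ^ 2) :=
    tsum_of_norm_bounded (summable_sq.mul_left _).hasSum fun n => abs_tm_le x k n
  rw [tsum_mul_left] at h1
  exact h1

theorem chi_zero : chi 0 = 0 := by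
  unfold chi tm
  simp

theorem chi_opE (x y : E) : chi (opE (x, y)) = chi x + chi y := by
  unfold chi
  rw [← (summable_tm x).tsum_add (summable_tm y)]
  refine tsum_congr fun n => ?_
  unfold tm
  rw [arsinh_opE, add_div]

theorem continuous_opE : Continuous opE :=
  continuous_nem isCrd_crdL2 temperate_msym (fun q n => crd_opE q n)

theorem tendsto_chi_zero : Tendsto chi (𝓝 0) (𝓝 0) := by
  rw [Metric.tendsto_nhds]
  intro ε hε
  have hS : 0 ≤ S := tsum_nonneg fun n => by positivity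
  obtain ⟨k, hk⟩ := exists_nat_one_div_lt (show 0 < ε / (2 * (S + 1)) by positivity)
  have h1 : Tendsto (p k) (𝓝 0) (𝓝 0) := by
    simpa using (continuous_p k).tendsto 0
  have h2 : ∀ᶠ x in 𝓝 (0 : E), p k x < ε / (2 * (S + 1)) :=
    h1.eventually (gt_mem_nhds (by positivity))
  filter_upwards [h2] with x hx
  rw [Real.dist_eq, sub_zero]
  calc |chi x| ≤ (p k x + 1 / (k + 1)) * S := abs_chi_le x k
    _ ≤ (ε / (2 * (S + 1)) + ε / (2 * (S + 1))) * S := by gcongr
    _ < ε := by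
        have : (ε / (2 * (S + 1)) + ε / (2 * (S + 1))) * S = ε * (S / (S + 1)) := by
          field_simp
          ring
        rw [this]
        have h3 : S / (S + 1) < 1 := by
          rw [div_lt_one (by positivity)]
          linarith
        nlinarith

theorem continuous_chi : Continuous chi := by
  rw [continuous_iff_continuousAt]
  intro x
  have h1 : ∀ y, chi y = chi x + chi (opE (-x, y)) := by
    intro y
    rw [chi_opE]
    have h2 : chi (opE (x, -x)) = chi 0 := by
      congr 1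
      refine ext_arsinh fun n => ?_
      simp [arsinh_opE, Real.arsinh_neg]
    rw [chi_opE, chi_zero] at h2
    linarith
  have h3 : Tendsto (fun y => opE (-x, y)) (𝓝 x) (𝓝 0) := by
    have h4 : opE (-x, x) = 0 := by
      refine ext_arsinh fun n => ?_
      simp [arsinh_opE, Real.arsinh_neg]
    have h5 : Continuous fun y => opE (-x, y) := continuous_opE.comp (by fun_prop)
    have h6 := h5.tendsto x
    rwa [h4] at h6
  have h7 : Tendsto (fun y => chi x + chi (opE (-x, y))) (𝓝 x) (𝓝 (chi x + 0)) :=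
    tendsto_const_nhds.add (tendsto_chi_zero.comp h3)
  rw [add_zero] at h7
  exact h7.congr fun y => (h1 y).symm

/-- The sequence `n ↦ (n+1)^2`, as an element of `E`. -/
def vE : E := mkE (fun n => ((n : ℝ) + 1) ^ 2) (by
  intro k
  refine ⟨4 * (k + 1) ^ 2 * Real.exp (1 / (k + 1)), fun n => ?_⟩
  have hk : (0 : ℝ) < (k : ℝ) + 1 := by positivity
  have hn : (0 : ℝ) < (n : ℝ) + 1 := by positivity
  rw [abs_of_pos (by positivity)]
  have h1 : ((n : ℝ) + 1) / (2 * (k + 1)) ≤ Real.exp (((n : ℝ) + 1) / (2 * (k + 1))) :=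
    (by linarith : ((n : ℝ) + 1) / (2 * (k + 1)) ≤ ((n : ℝ) + 1) / (2 * (k + 1)) + 1).trans
      (Real.add_one_le_exp _)
  have h2 : (((n : ℝ) + 1) / (2 * (k + 1))) ^ 2 ≤ Real.exp (((n : ℝ) + 1) / (k + 1)) := by
    calc (((n : ℝ) + 1) / (2 * (k + 1))) ^ 2 ≤ Real.exp (((n : ℝ) + 1) / (2 * (k + 1))) ^ 2 := by
          gcongr
      _ = Real.exp (((n : ℝ) + 1) / (k + 1)) := by
          rw [← Real.exp_nat_mul]
          congr 1
          push_cast
          field_simp
  have h3 : w k n * Real.exp (((n : ℝ) + 1) / (k + 1)) = Real.exp (1 / (k + 1)) := by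
    unfold w
    rw [← Real.exp_add]
    congr 1
    field_simp
    ring
  calc w k n * ((n : ℝ) + 1) ^ 2
      = 4 * (k + 1) ^ 2 * (w k n * (((n : ℝ) + 1) / (2 * (k + 1))) ^ 2) := by
        field_simp
        ring
    _ ≤ 4 * (k + 1) ^ 2 * (w k n * Real.exp (((n : ℝ) + 1) / (k + 1))) := by
        have := (w_pos k n).le
        gcongr
    _ = _ := by rw [h3])

@[simp] theorem crd_vE (n : ℕ) : crd vE n = ((n : ℝ) + 1) ^ 2 := crd_mkE _ _ n

theorem sum_le_chi {t : ℝ} (ht : 0 < t) (N : ℕ) :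
    ∑ n ∈ Finset.range N, t⁻¹ * (Real.arsinh (t * ((n : ℝ) + 1) ^ 2) / (n + 1) ^ 3) ≤
      t⁻¹ * chi (t • vE) := by
  rw [← Finset.mul_sum]
  refine mul_le_mul_of_nonneg_left ?_ (inv_pos.mpr ht).le
  have h1 : ∀ n, tm (t • vE) n = Real.arsinh (t * ((n : ℝ) + 1) ^ 2) / (n + 1) ^ 3 := by
    intro n
    unfold tm
    rw [crd_smul, crd_vE]
  have h2 := (summable_tm (t • vE)).sum_le_tsum (Finset.range N) (fun n _ => by
    rw [h1]
    have : 0 ≤ Real.arsinh (t * ((n : ℝ) + 1) ^ 2) :=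
      Real.arsinh_nonneg_iff.mpr (by positivity)
    positivity)
  calc _ = ∑ n ∈ Finset.range N, tm (t • vE) n := Finset.sum_congr rfl fun n _ => (h1 n).symm
    _ ≤ chi (t • vE) := h2

theorem tendsto_arsinh_div (a : ℝ) :
    Tendsto (fun t : ℝ => t⁻¹ * Real.arsinh (t * a)) (𝓝[>] 0) (𝓝 a) := by
  have h1 : HasDerivAt (fun t : ℝ => t * a) a 0 := by
    simpa using (hasDerivAt_id (0 : ℝ)).mul_const a
  have h2 : HasDerivAt (fun t : ℝ => Real.arsinh (t * a)) a 0 := by
    have h3 := h1.arsinh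
    simpa using h3
  refine h2.tendsto_slope_zero_right.congr fun t => ?_
  simp

theorem chi_not_diff (L : ℝ) :
    ¬ Tendsto (fun t : ℝ => t⁻¹ • (chi (0 + t • vE) - chi 0)) (𝓝[≠] 0) (𝓝 L) := by
  intro h
  have h1 : Tendsto (fun t : ℝ => t⁻¹ * chi (t • vE)) (𝓝[>] 0) (𝓝 L) := by
    have h2 := h.mono_left (nhdsWithin_mono 0 (fun t (ht : 0 < t) => ht.ne'))
    refine h2.congr fun t => ?_
    rw [zero_add, chi_zero, sub_zero, smul_eq_mul]
  have h3 : ∀ N : ℕ, ∑ n ∈ Finset.range N, (1 : ℝ) / (n + 1) ≤ L := by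
    intro N
    have h4 : Tendsto (fun t : ℝ => ∑ n ∈ Finset.range N,
        t⁻¹ * (Real.arsinh (t * ((n : ℝ) + 1) ^ 2) / (n + 1) ^ 3)) (𝓝[>] 0)
        (𝓝 (∑ n ∈ Finset.range N, (1 : ℝ) / (n + 1))) := by
      refine tendsto_finsetSum _ fun n _ => ?_
      have h5 := (tendsto_arsinh_div (((n : ℝ) + 1) ^ 2)).div_const (((n : ℝ) + 1) ^ 3)
      have h6 : ((n : ℝ) + 1) ^ 2 / ((n : ℝ) + 1) ^ 3 = 1 / (n + 1) := by
        have : (n : ℝ) + 1 ≠ 0 := by positivity
        field_simp
      rw [h6] at h5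
      refine h5.congr fun t => ?_
      rw [mul_div_assoc]
    refine le_of_tendsto_of_tendsto h4 h1 ?_
    filter_upwards [self_mem_nhdsWithin] with t ht
    exact sum_le_chi ht N
  have h7 := Real.tendsto_sum_range_one_div_nat_succ_atTop
  obtain ⟨N, hN⟩ := (h7.eventually (eventually_gt_atTop L)).exists
  exact absurd (h3 N) (not_le.mpr hN)

end Pool.Agent.H87.SubExp
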